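import Pool.Agent.H2.ShafMain

set_option autoImplicit false

namespace Pool.Agent.Results.MP_d071c2_nt.DenseQuartic

open IsDedekindDomain Pool.Agent.H2.Shaf

/-- For every number field `K` there is a finite set `S` of primes of `K` such that the classes of degree-`4`
morphisms `ℙ¹ → ℙ¹` defined over `K` with good reduction outside `S` are Zariski dense in the moduli
space `M_4^1`. Since `dim M_4^1 = 2·4 - 2 = 6`, this says `σ_4^1 = 6 = d + 2 > d + 1`. -/
theorem result (K : Type) [Field K] [NumberField K] :
    ∃ S : Finset (HeightOneSpectrum (NumberField.RingOfIntegers K)),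
      Dense (goodClasses 1 4 K (S : Set (HeightOneSpectrum (NumberField.RingOfIntegers K)))) :=
  dense_quartic K

end Pool.Agent.Results.MP_d071c2_nt.DenseQuartic
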